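import Pool.Agent.H42VN.Fin

/-!
# Smash-nilpotent cycles and the nilpotency index of correspondences

Let `C` be the category of the smooth connected projective varieties over `ℂ`, with the groups
`A^*(X × Y)` (all codimensions, rational coefficients) as morphisms. It is known (Voevodsky) that
correspondences with a smash-nilpotent graph are nilpotent. The theorem is a sharp converse.

For a cycle `x` on `S` let `J_x` be the ideal of correspondences generated by `x`: the cycles `f_* x` on
`Z`, for all correspondences `f` from `S` to `Z`, form the space `gen x Z`, and a correspondence from `X`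
to `Y` is in `J_x` if its graph is in `gen x (X × Y)`.

* (One cycle.) Let `x` be homologically trivial. **The `k`-fold exterior product `x × ⋯ × x` is zero if
  and only if `f ∘ ⋯ ∘ f = 0` (`k` factors) for all `f` in `J_x` (from any variety to itself), if and only
  if all compositions of `k` correspondences in `J_x` are zero, if and only if `f ∘ ⋯ ∘ f = 0` for the
  `f` in `J_x` from `S^k` to `S^k`.**
* (Gap.) If `x × ⋯ × x` (`n` factors) is not zero, then there is a correspondence in `J_x` from `S^n` to
  `S^n` with nilpotency index exactly `n + 1`. So the nilpotency index of the nil algebra of the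
  correspondences from `S^n` to itself in `J_x` is at least `n + 1` for all `n`, or bounded for all `n`
  by the first `n` for which it is at most `n`, the smash index of `x`.
* So the conjecture of Voevodsky holds if and only if for each homologically trivial cycle `x` on a
  variety `X` there is one `n` such that `f ∘ ⋯ ∘ f = 0` (`n` factors) for all `f` in `J_x` from `X^n` to
  `X^n`.
* (All cycles.) For a system `J` of homologically trivial cycles which is stable under correspondences
  (for instance all of them, or those which are algebraically equivalent to zero) and each `k` are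
  equivalent: `x × ⋯ × x = 0` (`k` factors) for all `x` in `J`; `x_1 × ⋯ × x_k = 0` for all `x_i` in `J`;
  `f ∘ ⋯ ∘ f = 0` (`k` factors) for all `f` in the ideal `J`; `f_1 ∘ ⋯ ∘ f_k = 0` for all `f_i` in `J`.
  (Over a number field one expects this with `k = 2` for all homologically trivial cycles, by the
  conjectures of Beilinson and Bloch.)
* (Growth.) If `dim J (T^n) / ρ (T^n) ≤ c < k` for infinitely many `n`, `ρ` the rank of the cycles modulo
  numerical equivalence, then all compositions of `k` correspondences in `J` between powers of `T` are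
  zero. (By the law in `ZeroInfinityLaw`, helper23.)

The setting. `R` is the Betti cohomology with coefficients extended to an algebraically closed field
`K`; all `h (X)` are self-dual and have the motive of a point as a direct summand (`hpair` and `hunit`).
No standard conjecture is assumed. The theorem holds, with the same proof, over every field.

Idea of the proof. Let `i : 𝟙 ⟶ S` and `r : S ⟶ 𝟙` with `r ∘ i = 1`. As `r ∘ x = 0`, the correspondence
`e = x ∘ r` has `e ∘ e = 0`, and the sum `F` of its actions `e_1, …, e_n` on the factors of `S^n` has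
`F^n = n! e_1 ∘ ⋯ ∘ e_n` and `F^(n+1) = 0`. For several cycles `x_i` one uses the sum of their pull backs
to the product of the varieties, and the projections of its exterior powers to the components.
The definitions are in Pool/Agent/H42VN/Defs.lean.
-/

set_option autoImplicit false

open CategoryTheory MonoidalCategory Module Filter Topology
open Pool.Agent.Y112.SR Pool.Agent.Y112.KD Pool.Agent.N64.AF Pool.Agent.H23NC Pool.Agent.H23OB
open Pool.Agent.H23VN Pool.Agent.H42VN
open scoped ENNReal

namespace Pool.Agent.Results.MP_bf8edd_ag.NilpotencyIndex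

universe v u w

/-- The smash index of cycles and the nilpotency index of correspondences. -/
theorem result {C : Type u} [Category.{v} C] [Preadditive C] [MonoidalCategory C]
    [MonoidalPreadditive C] [SymmetricCategory C] [RightRigidCategory C] [Linear ℚ C]
    [MonoidalLinear ℚ C] {K : Type w} [Field K] [IsAlgClosed K] [Algebra ℚ K]
    (R : SuperRealisation C K) (hR : IsReal ℚ R)
    (hpair : ∀ X : C, Nonempty (ExactPairing X X)) (hunit : ∀ X : C, HasUnit X) :
    (∀ (S : C) (x : 𝟙_ C ⟶ S), R.H.map x = 0 → ∀ k : ℕ,
      List.TFAE [tpow x k = 0,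
        ∀ (X : C), ∀ y ∈ gen x X, tpow y k = 0,
        ∀ l : List (Σ X : C, 𝟙_ C ⟶ X), l.length = k → (∀ y ∈ l, y.2 ∈ gen x y.1) →
          lp (𝟙 (𝟙_ C)) l = 0,
        ∀ (X : C) (f : X ⟶ X), InJ (gen x) f → pw f k = 0,
        ∀ (X Y : C) (f : X ⟶ Y), Comp (fun _ => True) (gen x) k X Y f → f = 0,
        ∀ f : tp S k ⟶ tp S k, InJ (gen x) f → pw f k = 0]) ∧
    (∀ (S : C) (x : 𝟙_ C ⟶ S), R.H.map x = 0 → ∀ n : ℕ, tpow x n ≠ 0 →
      ∃ f : tp S n ⟶ tp S n, InJ (gen x) f ∧ pw f n ≠ 0 ∧ pw f (n + 1) = 0) ∧
    ((∀ (X : C) (x : 𝟙_ C ⟶ X), R.H.map x = 0 → SmashNil x) ↔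
      ∀ (X : C) (x : 𝟙_ C ⟶ X), R.H.map x = 0 → ∃ n : ℕ, ∀ f : tp X n ⟶ tp X n,
        InJ (gen x) f → pw f n = 0) ∧
    (∀ J : (∀ X : C, Submodule ℚ (𝟙_ C ⟶ X)), Stab J → (∀ X : C, ∀ x ∈ J X, R.H.map x = 0) →
      ∀ k : ℕ, List.TFAE [∀ (X : C), ∀ x ∈ J X, tpow x k = 0,
        ∀ l : List (Σ X : C, 𝟙_ C ⟶ X), l.length = k → (∀ y ∈ l, y.2 ∈ J y.1) →
          lp (𝟙 (𝟙_ C)) l = 0,
        ∀ (X : C) (f : X ⟶ X), InJ J f → pw f k = 0,
        ∀ (X Y : C) (f : X ⟶ Y), Comp (fun _ => True) J k X Y f → f = 0]) ∧
    ∀ J : (∀ X : C, Submodule ℚ (𝟙_ C ⟶ X)), Stab J → (∀ X : C, ∀ x ∈ J X, R.H.map x = 0) →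
      ∀ (T : C) (k : ℕ) (c : ℝ≥0∞), c < k →
        (∃ᶠ n in atTop, relShare (J (tp T n)) ⊥ ≤ c) →
        ∀ (X Y : C) (f : X ⟶ Y), IsPower T X → Comp (IsPower T) J k X Y f → f = 0 := by
  refine ⟨fun S x hx k => one_tfae hpair hunit x (comp_zero_of_hom hR x hx) k,
    fun S x hx n hn => gap hunit x (comp_zero_of_hom hR x hx) n hn,
    voev hR hpair hunit, fun J hJ hJh k => ?_,
    fun J hJ hJh T k c hc hf => growth hR hpair hunit J hJ hJh T k c hc hf⟩
  have h := tfae (P := fun _ : C => True) (J := J) hJ
    (fun x hx => zero_of_hom hR x (hJh _ x hx)) trivial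
    (fun _ _ _ _ => trivial) (fun X _ => hunit X) (fun X _ => hpair X) k
  have h12 := h.out 0 1
  have h13 := h.out 0 2
  have h14 := h.out 0 3
  tfae_have 1 ↔ 2 := by
    constructor
    · intro h0 l hl hlJ
      exact h12.1 (fun X _ => h0 X) l hl fun y hy => ⟨trivial, hlJ y hy⟩
    · intro h0 X
      exact h12.2 (fun l hl hlJ => h0 l hl fun y hy => (hlJ y hy).2) X trivial
  tfae_have 1 ↔ 3 := by
    constructor
    · intro h0 X f hf
      exact h13.1 (fun X _ => h0 X) X trivial f hf
    · intro h0 X
      exact h13.2 (fun X _ f hf => h0 X f hf) X trivial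
  tfae_have 1 ↔ 4 := by
    constructor
    · intro h0 X Y f hf
      exact h14.1 (fun X _ => h0 X) X Y f trivial hf
    · intro h0 X
      exact h14.2 (fun X Y f _ hf => h0 X Y f hf) X trivial
  tfae_finish

end Pool.Agent.Results.MP_bf8edd_ag.NilpotencyIndex
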