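import Pool.Agent.H23VN.One

/-!
# The size of the homologically trivial cycles modulo smash-nilpotent cycles

Let `C` be the category of the smooth connected complex projective varieties, with the groups
`A^*(X × Y)` (all codimensions, rational coefficients) as morphisms, `ρ (T^n)` the rank of the group of all cycles on
`T^n` modulo numerical equivalence.

For a cycle `x` on `S` let `J_x(Z)` be the space of the cycles on `Z` which are generated by `x`, that
is of the images `f_* x` under all correspondences `f` from `S` to `Z`.

Theorem.

* (One cycle.) **A homologically trivial cycle `x` on a power of `T` is smash-nilpotent, or the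
  quotients `dim (J_x / (J_x ∩ A_⊗))(T^n) / ρ (T^n)` TEND TO INFINITY**: a single counterexample to
  the conjecture generates, even modulo smash-nilpotent cycles, spaces which are infinitely larger than
  the spaces of all cycles modulo numerical equivalence.
* So the conjecture of Voevodsky (for all varieties) holds if and only if for each variety `X` and
  each homologically trivial cycle `x` on `X` there is a constant `c` such that
  `dim (J_x / (J_x ∩ A_⊗))(X^n) ≤ c ρ (X^n)` for infinitely many `n`.
* More generally let `A` be any system of spaces of homologically trivial cycles, and `B` a system of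
  spaces of smash-nilpotent cycles, which are stable under correspondences, for instance `A = A_hom`
  or `A = J_x`, and `B = 0`, or `B` the cycles which are algebraically equivalent to zero (they are
  smash-nilpotent by Voevodsky and Voisin). Then the quotients `dim (A / (A ∩ B))(T^n) / ρ (T^n)`
  CONVERGE to a number `N` or to infinity, `N = 0` or `N ≥ 1`, and `N = 0` if and only if `A ⊆ B` on all
  powers of `T`. If `N` is finite then all `(A / (A ∩ B))(T^n)` are finite-dimensional, all cycles in
  `A` on powers of `T` are smash-nilpotent, and for each such cycle `x` and each `k > N` the `k`-fold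
  exterior product `x × ⋯ × x` lies in `B`. In particular (`A = J_x`, `B = 0`) the smash index of `x` is
  at most the lower limit of `dim J_x (T^n) / ρ (T^n)`, plus one.

So, if for a variety `T` the rational Griffiths groups satisfy `dim Griff^* (T^n) ≤ c ρ (T^n)` for
infinitely many `n`, `c` any constant, then the conjecture of Voevodsky holds for all powers of `T`, and all
homologically trivial cycles `x` on powers of `T` satisfy: `x × ⋯ × x` (`k` factors, `k > c`) is
algebraically equivalent to zero.

The setting. `R` is the Betti cohomology with coefficients extended to an algebraically closed field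
`K`, for instance `K = ℂ`; all `h (X)` are self-dual and have the motive of a point as a direct
summand (`hpair` and `hunit`). The standard conjectures, in particular the sign conjecture, which are not known
over `ℂ`, are not assumed. (The same theorem holds, with the same proof, over every field.)

Idea of the proof. `A / (A ∩ B)` is an additive functor on `C`. Modulo numerical equivalence `C` is
semisimple (Jannsen). For direct summands `M` of powers of `T` modulo numerical equivalence
`dim Hom_num (M, T^n) / c (n)` has a limit `d (M)`, `d (M) ≥ 1` for `M ≠ 0`, where `c (n)` is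
asymptotic to `ρ (T^n)`; this is proved by elementary analysis, without any realisation of
numerical motives (files Pool/Agent/H23NC). If the lower limit of the quotients is finite, numerically
trivial correspondences act nilpotently on this functor, and it has finitely many constituents on the powers of
`T`, at most `N`, which are simple numerical motives and contribute `d (M) ≥ 1` to the limit. Then
each product of `k ≥ N` numerically trivial correspondences acts as zero. Since
`x × ⋯ × x` is obtained from `x` by such products, `x × ⋯ × x ∈ B`. As `B ⊆ A_⊗`, `x` is smash-nilpotent. Hence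
for `B = A_⊗` the limit is `0` or `∞`. For a single cycle take `A = J_x`.

Author: helper23; the lemmas on semisimplicity, duality and constituents build on the files AF of
helper64 and the helpers named there, the lemmas on smash-nilpotence (files AF/V1, AF/V2) are due to
helper322 and helper690. The law `smash_law` of AF/V2 has the same form for objects which satisfy the sign
conjecture `C⁺` (varieties over finite fields).
-/

set_option autoImplicit false

open CategoryTheory MonoidalCategory Module Filter Topology
open Pool.Agent.Y112.SR Pool.Agent.Y112.KD Pool.Agent.N64.AF Pool.Agent.H23NC Pool.Agent.H23OB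
open Pool.Agent.H23VN
open scoped ENNReal

namespace Pool.Agent.Results.MP_bf8edd_ag.ZeroInfinityLaw

universe v u w

/-- The conjecture of Voevodsky and the size of the spaces of cycles which are generated by one
homologically trivial cycle. -/
theorem result {C : Type u} [Category.{v} C] [Preadditive C] [MonoidalCategory C]
    [MonoidalPreadditive C] [SymmetricCategory C] [RightRigidCategory C] [Linear ℚ C]
    [MonoidalLinear ℚ C] {K : Type w} [Field K] [IsAlgClosed K] [Algebra ℚ K]
    (R : SuperRealisation C K) (hR : IsReal ℚ R)
    (hpair : ∀ X : C, Nonempty (ExactPairing X X)) (hunit : ∀ X : C, HasUnit X) :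
    (∀ (T : C) (m : ℕ) (x : 𝟙_ C ⟶ tp T m), R.H.map x = 0 → SmashNil x ∨
      Tendsto (fun n => relShare (gen x (tp T n)) (smashSub ℚ (tp T n))) atTop (𝓝 ⊤)) ∧
    ((∀ (X : C) (x : 𝟙_ C ⟶ X), R.H.map x = 0 → SmashNil x) ↔
      ∀ (X : C) (x : 𝟙_ C ⟶ X), R.H.map x = 0 → ∃ c : ℝ≥0∞, c ≠ ⊤ ∧ ∃ᶠ n in atTop,
        relShare (gen x (tp X n)) (smashSub ℚ (tp X n)) ≤ c) ∧
    ∀ A B : (∀ X : C, Submodule ℚ (𝟙_ C ⟶ X)), Cycles.Stable A → (∀ X : C, A X ≤ hom hR X) →
      Cycles.Stable B → (∀ X : C, B X ≤ smashSub ℚ X) →
      ∀ T : C, ∃ N : ℝ≥0∞,
        Tendsto (fun n => relShare (A (tp T n)) (B (tp T n))) atTop (𝓝 N) ∧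
        (N = 0 ∨ 1 ≤ N) ∧
        (N = 0 ↔ ∀ n, A (tp T n) ≤ B (tp T n)) ∧
        (∀ k : ℕ, N < k + 1 → ∀ (m : ℕ), ∀ x ∈ A (tp T m),
          tpow x (k + 1) ∈ B (tp (tp T m) (k + 1))) ∧
        (N ≠ ⊤ → ∀ n, relDim (A (tp T n)) (B (tp T n)) ≠ ⊤ ∧
          A (tp T n) ≤ smashSub ℚ (tp T n)) :=
  ⟨fun T m x hx => by
      obtain ⟨_⟩ := hpair T
      exact one_cycle hR (hunit T) hx, voevodsky_iff_one hR hpair hunit,
    fun A B hA hAh hB hBs T => by
      obtain ⟨_⟩ := hpair T
      exact sub_pair hR hA hAh hB hBs (hunit T)⟩

end Pool.Agent.Results.MP_bf8edd_ag.ZeroInfinityLaw
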